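import Mathlib

/-!
# MP_dc3d2a_al: every Leonard pair of `q`-Racah type carries the equitable `U_q(sl₂)`-action
-/

set_option autoImplicit false

namespace Pool.Agent.Results.MP_dc3d2a_al.EquitableAction

open Module

universe u w

/-! ### Definitions -/

/-- the four generators `X`, `X⁻¹`, `Y`, `Z` of `U_q(sl₂)` -/
inductive Gen
  | X | Xinv | Y | Z

/-- the defining relations of `U_q(sl₂)` in the equitable presentation -/
inductive Rel {K : Type u} [Field K] (q : K) : FreeAlgebra K Gen → FreeAlgebra K Gen → Prop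
  | mul_inv : Rel q (FreeAlgebra.ι K Gen.X * FreeAlgebra.ι K Gen.Xinv) 1
  | inv_mul : Rel q (FreeAlgebra.ι K Gen.Xinv * FreeAlgebra.ι K Gen.X) 1
  | xy : Rel q (q • (FreeAlgebra.ι K Gen.X * FreeAlgebra.ι K Gen.Y)
      - q⁻¹ • (FreeAlgebra.ι K Gen.Y * FreeAlgebra.ι K Gen.X)) ((q - q⁻¹) • 1)
  | yz : Rel q (q • (FreeAlgebra.ι K Gen.Y * FreeAlgebra.ι K Gen.Z)
      - q⁻¹ • (FreeAlgebra.ι K Gen.Z * FreeAlgebra.ι K Gen.Y)) ((q - q⁻¹) • 1)
  | zx : Rel q (q • (FreeAlgebra.ι K Gen.Z * FreeAlgebra.ι K Gen.X)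
      - q⁻¹ • (FreeAlgebra.ι K Gen.X * FreeAlgebra.ι K Gen.Z)) ((q - q⁻¹) • 1)

/-- the algebra `U_q(sl₂)` -/
abbrev Uq {K : Type u} [Field K] (q : K) : Type u := RingQuot (Rel q)

/-- the generators of `U_q(sl₂)` -/
def gen {K : Type u} [Field K] (q : K) (g : Gen) : Uq q :=
  RingQuot.mkAlgHom K (Rel q) (FreeAlgebra.ι K g)

/-- a representation (equivalently, a module structure) is irreducible: the space is nonzero and
there is no proper nonzero invariant subspace -/
def IsIrreducible {K : Type u} [Field K] {V : Type w} [AddCommGroup V] [Module K V] {q : K}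
    (ρ : Uq q →ₐ[K] End K V) : Prop :=
  Nontrivial V ∧ ∀ W : Submodule K V, (∀ x : Uq q, ∀ v ∈ W, ρ x v ∈ W) → W = ⊥ ∨ W = ⊤

/-- irreducible tridiagonal matrices -/
def IrredTridiag {K : Type u} [Field K] {n : ℕ} (M : Matrix (Fin n) (Fin n) K) : Prop :=
  (∀ i j : Fin n, (i : ℕ) + 1 < j ∨ (j : ℕ) + 1 < i → M i j = 0) ∧
  (∀ i j : Fin n, (i : ℕ) + 1 = j ∨ (j : ℕ) + 1 = i → M i j ≠ 0)

/-- `A, A*` is a Leonard pair on the space `V` (of dimension `d + 1`) -/
def IsLeonardPair {K : Type u} [Field K] {V : Type w} [AddCommGroup V] [Module K V]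
    (d : ℕ) (A As : End K V) : Prop :=
  (∃ v : Basis (Fin (d + 1)) K V,
    (LinearMap.toMatrix v v A).IsDiag ∧ IrredTridiag (LinearMap.toMatrix v v As)) ∧
  (∃ v : Basis (Fin (d + 1)) K V,
    (LinearMap.toMatrix v v As).IsDiag ∧ IrredTridiag (LinearMap.toMatrix v v A))

/-- the lower bidiagonal matrix with diagonal `x 0, ..., x d` and all subdiagonal entries `1` -/
def lowerBi {K : Type u} [Field K] (d : ℕ) (x : ℕ → K) : Matrix (Fin (d + 1)) (Fin (d + 1)) K :=
  fun i j => if (i : ℕ) = j then x i else if (i : ℕ) = j + 1 then 1 else 0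

/-- the upper bidiagonal matrix with diagonal `x 0, ..., x d` and superdiagonal `p 1, ..., p d` -/
def upperBi {K : Type u} [Field K] (d : ℕ) (x p : ℕ → K) : Matrix (Fin (d + 1)) (Fin (d + 1)) K :=
  fun i j => if (i : ℕ) = j then x i else if (j : ℕ) = i + 1 then p j else 0

/-- `A, A*` has parameter array `(θ, θ*, φ, ϕ)` -/
def HasParameterArray {K : Type u} [Field K] {V : Type w} [AddCommGroup V] [Module K V]
    (d : ℕ) (A As : End K V) (θ θs φ ϕ : ℕ → K) : Prop :=
  (∃ v : Basis (Fin (d + 1)) K V,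
    LinearMap.toMatrix v v A = lowerBi d θ ∧ LinearMap.toMatrix v v As = upperBi d θs φ) ∧
  (∃ v : Basis (Fin (d + 1)) K V,
    LinearMap.toMatrix v v A = lowerBi d (fun i => θ (d - i)) ∧
    LinearMap.toMatrix v v As = upperBi d θs ϕ)

/-- `λ_i(x) = x q^{2i-d} + x⁻¹ q^{d-2i}` -/
def lam {K : Type u} [Field K] (q : K) (d : ℕ) (x : K) (i : ℕ) : K :=
  x * q ^ (2 * (i : ℤ) - d) + x⁻¹ * q ^ ((d : ℤ) - 2 * i)

/-- `u_i = (q^{-i} - q^i)(q^{d-i+1} - q^{i-d-1})` -/
def uu {K : Type u} [Field K] (q : K) (d i : ℕ) : K :=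
  (q ^ (-(i : ℤ)) - q ^ (i : ℤ)) * (q ^ ((d : ℤ) - i + 1) - q ^ ((i : ℤ) - d - 1))

/-- `r_i(x) = q^{-i} - x q^{i-d-1}` -/
def rr {K : Type u} [Field K] (q : K) (d i : ℕ) (x : K) : K :=
  q ^ (-(i : ℤ)) - x * q ^ ((i : ℤ) - d - 1)

/-- the first split sequence `φ_i` -/
def phi1 {K : Type u} [Field K] (q a b c : K) (d i : ℕ) : K :=
  q ^ (d + 1) / (a * b) * uu q d i * rr q d i (a * b * c) * rr q d i (a * b / c)

/-- the second split sequence `ϕ_i` -/
def phi2 {K : Type u} [Field K] (q a b c : K) (d i : ℕ) : K :=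
  a * q ^ (d + 1) / b * uu q d i * rr q d i (b * c / a) * rr q d i (b / (a * c))

/-! ### Extended bases -/

section aux

variable {K : Type u} [Field K] {V : Type w} [AddCommGroup V] [Module K V] {d : ℕ}

/-- the basis, extended by `0` -/
noncomputable def vv (v : Basis (Fin (d + 1)) K V) (j : ℕ) : V := if h : j < d + 1 then v ⟨j, h⟩ else 0

lemma vv_lt (v : Basis (Fin (d + 1)) K V) (i : Fin (d + 1)) : vv v i = v i := by
  rw [vv, dif_pos i.2]

lemma vv_ge (v : Basis (Fin (d + 1)) K V) {j : ℕ} (h : d + 1 ≤ j) : vv v j = 0 := by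
  simp [vv, Nat.not_lt.2 h]

lemma repr_vv (v : Basis (Fin (d + 1)) K V) (j : ℕ) (i : Fin (d + 1)) :
    v.repr (vv v j) i = if (i : ℕ) = j then 1 else 0 := by
  unfold vv
  split_ifs with h h' h'
  · simp [Finsupp.single_apply, Fin.ext_iff, h']
  · simp [Fin.ext_iff, Ne.symm h']
  · omega
  · simp

lemma ext_vv (v : Basis (Fin (d + 1)) K V) {f g : End K V} (h : ∀ j, f (vv v j) = g (vv v j)) :
    f = g := v.ext fun i => by simpa [vv_lt] using h i

lemma lower_vv (v : Basis (Fin (d + 1)) K V) {A : End K V} {x : ℕ → K}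
    (h : LinearMap.toMatrix v v A = lowerBi d x) (j : ℕ) :
    A (vv v j) = x j • vv v j + vv v (j + 1) := by
  by_cases hj : j < d + 1
  · apply v.repr.injective
    ext i
    have h1 := congrFun (congrFun h i) ⟨j, hj⟩
    rw [LinearMap.toMatrix_apply] at h1
    have h2 : vv v j = v ⟨j, hj⟩ := by simp [vv, hj]
    simp only [map_add, map_smul, Finsupp.add_apply, Finsupp.smul_apply, repr_vv, smul_eq_mul]
    rw [h2, h1, lowerBi]
    simp only
    by_cases h3 : (i : ℕ) = j
    · simp [h3]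
    · simp [h3]
  · rw [vv_ge v (by omega), vv_ge v (by omega)]; simp

lemma upper_vv (v : Basis (Fin (d + 1)) K V) {A : End K V} {x p : ℕ → K}
    (h : LinearMap.toMatrix v v A = upperBi d x p) (h0 : p 0 = 0) (hd : p (d + 1) = 0) (j : ℕ) :
    A (vv v j) = x j • vv v j + p j • vv v (j - 1) := by
  by_cases hj : j < d + 1
  · apply v.repr.injective
    ext i
    have h1 := congrFun (congrFun h i) ⟨j, hj⟩
    rw [LinearMap.toMatrix_apply] at h1
    have h2 : vv v j = v ⟨j, hj⟩ := by simp [vv, hj]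
    simp only [map_add, map_smul, Finsupp.add_apply, Finsupp.smul_apply, repr_vv, smul_eq_mul]
    rw [h2, h1, upperBi]
    simp only
    by_cases h3 : (i : ℕ) = j
    · subst h3
      by_cases h4 : (i : ℕ) = 0
      · simp [h4, h0]
      · have : ¬ ((i : ℕ) = i - 1) := by omega
        simp [this]
    · rcases Nat.eq_zero_or_pos j with h5 | h5
      · subst h5
        have : ¬ (0 = (i : ℕ) + 1) := by omega
        simp [h3, h0]
      · by_cases h6 : j = (i : ℕ) + 1
        · have : (i : ℕ) = j - 1 := by omega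
          simp [h6]
        · have : ¬ ((i : ℕ) = j - 1) := by omega
          simp [h3, h6, this]
  · rcases Nat.lt_or_ge (d + 1) j with h1 | h1
    · rw [vv_ge v (by omega : d + 1 ≤ j), vv_ge v (by omega : d + 1 ≤ j - 1)]; simp
    · have : j = d + 1 := by omega
      subst this
      rw [vv_ge v (le_refl _), hd]; simp

/-- the endomorphism with prescribed values -/
noncomputable def mkE (v : Basis (Fin (d + 1)) K V) (f : ℕ → V) : End K V :=
  v.constr K (fun i : Fin (d + 1) => f i)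

lemma mkE_vv (v : Basis (Fin (d + 1)) K V) (f : ℕ → V) (hf : ∀ j, d + 1 ≤ j → f j = 0) (j : ℕ) :
    mkE v f (vv v j) = f j := by
  by_cases hj : j < d + 1
  · have h2 : vv v j = v ⟨j, hj⟩ := by simp [vv, hj]
    rw [h2, mkE, Basis.constr_basis]
  · rw [vv_ge v (by omega), hf j (by omega), map_zero]

/-! ### Invariant subspaces -/

lemma aeval_mem {T : End K V} {W : Submodule K V} (hW : ∀ w ∈ W, T w ∈ W) (P : Polynomial K)
    {x : V} (hx : x ∈ W) : Polynomial.aeval T P x ∈ W := by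
  have hpow : ∀ n : ℕ, ∀ y ∈ W, (T ^ n) y ∈ W := by
    intro n
    induction n with
    | zero => intro y hy; simpa using hy
    | succ n ih => intro y hy; rw [pow_succ]; exact ih _ (hW _ hy)
  induction P using Polynomial.induction_on' with
  | add p r hp hr => rw [map_add]; exact W.add_mem hp hr
  | monomial n t =>
    rw [Polynomial.aeval_monomial]
    have : (algebraMap K (End K V) t * T ^ n) x = t • (T ^ n) x := by
      simp [Module.algebraMap_end_apply]
    rw [this]
    exact W.smul_mem _ (hpow n x hx)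

lemma proj_mem {n : ℕ} (e : Basis (Fin n) K V) {T : End K V} {μ : Fin n → K}
    (hμ : Function.Injective μ) (hT : ∀ k, T (e k) = μ k • e k) {W : Submodule K V}
    (hW : ∀ w ∈ W, T w ∈ W) {x : V} (hx : x ∈ W) {k : Fin n} (hk : e.repr x k ≠ 0) : e k ∈ W := by
  classical
  set P : Polynomial K :=
    ∏ l ∈ Finset.univ.erase k, (Polynomial.X - Polynomial.C (μ l)) with hP
  have h1 : ∀ j, Polynomial.aeval T P (e j) = P.eval (μ j) • e j := fun j =>
    Module.End.aeval_apply_of_hasEigenvector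
      (Module.End.hasEigenvector_iff.2 ⟨Module.End.mem_eigenspace_iff.2 (hT j), e.ne_zero j⟩)
  have h2 : Polynomial.aeval T P x = (e.repr x k * P.eval (μ k)) • e k := by
    conv_lhs => rw [← e.sum_repr x]
    rw [map_sum, Finset.sum_eq_single k]
    · rw [map_smul, h1, smul_smul]
    · intro j _ hj
      rw [map_smul, h1]
      have : P.eval (μ j) = 0 := by
        rw [hP, Polynomial.eval_prod]
        exact Finset.prod_eq_zero (Finset.mem_erase.2 ⟨hj, Finset.mem_univ _⟩) (by simp)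
      rw [this]; simp
    · intro h; exact absurd (Finset.mem_univ _) h
  have h3 : P.eval (μ k) ≠ 0 := by
    rw [hP, Polynomial.eval_prod]
    refine Finset.prod_ne_zero_iff.2 fun l hl => ?_
    have : l ≠ k := (Finset.mem_erase.1 hl).1
    simp only [Polynomial.eval_sub, Polynomial.eval_X, Polynomial.eval_C]
    exact sub_ne_zero.2 fun h => this (hμ h).symm
  have h4 := aeval_mem hW P hx
  rw [h2] at h4
  exact (W.smul_mem_iff (mul_ne_zero hk h3)).1 h4

lemma bot_or_top {n : ℕ} (e : Basis (Fin n) K V) {T : End K V} {μ : Fin n → K}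
    (hμ : Function.Injective μ) (hT : ∀ k, T (e k) = μ k • e k) {W : Submodule K V}
    (hW : ∀ w ∈ W, T w ∈ W)
    (hs : ∀ (m : ℕ) (h : m + 1 < n), e ⟨m, by omega⟩ ∈ W ↔ e ⟨m + 1, h⟩ ∈ W) :
    W = ⊥ ∨ W = ⊤ := by
  by_cases hb : W = ⊥
  · exact Or.inl hb
  · right
    obtain ⟨x, hx, hx0⟩ := (Submodule.ne_bot_iff W).1 hb
    have : ∃ k, e.repr x k ≠ 0 := by
      by_contra hcon
      push Not at hcon
      apply hx0
      apply e.repr.injective
      ext k
      simp [hcon k]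
    obtain ⟨k, hk⟩ := this
    have hkW := proj_mem e hμ hT hW hx hk
    have hiff : ∀ (m : ℕ) (h : m < n), e ⟨0, by omega⟩ ∈ W ↔ e ⟨m, h⟩ ∈ W := by
      intro m
      induction m with
      | zero => intro h; rfl
      | succ m ih => intro h; exact (ih (by omega)).trans (hs m h)
    have h0 := (hiff k k.2).2 hkW
    rw [eq_top_iff, ← e.span_eq, Submodule.span_le]
    rintro _ ⟨i, rfl⟩
    exact (hiff i i.2).1 h0

/-- an eigenvector of a lower bidiagonal map has nonzero last coordinate -/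
lemma last_coord (v : Basis (Fin (d + 1)) K V) {A : End K V} {x : ℕ → K}
    (h : LinearMap.toMatrix v v A = lowerBi d x) {m : K} {y : V} (hy : A y = m • y)
    (hl : v.repr y (Fin.last d) = 0) : y = 0 := by
  have hrec : ∀ (i : ℕ) (hi : i + 1 < d + 1),
      v.repr y ⟨i + 1, hi⟩ = 0 → v.repr y ⟨i, by omega⟩ = 0 := by
    intro i hi h0
    have h1 : v.repr (A y) ⟨i + 1, hi⟩ =
        ∑ j, lowerBi d x ⟨i + 1, hi⟩ j * v.repr y j := by
      rw [← h]
      exact (congrFun (LinearMap.toMatrix_mulVec_repr v v A y) ⟨i + 1, hi⟩).symm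
    rw [hy, map_smul, Finsupp.smul_apply, h0, smul_zero,
      Finset.sum_eq_single (⟨i, by omega⟩ : Fin (d + 1))] at h1
    · simp [lowerBi] at h1
      exact h1.symm
    · intro j _ hj
      by_cases hj' : (i + 1 : ℕ) = j
      · have : j = ⟨i + 1, hi⟩ := Fin.ext hj'.symm
        rw [this, h0, mul_zero]
      · have : ¬ (i + 1 = (j : ℕ) + 1) := by
          intro h'
          exact hj (Fin.ext (by simpa using h'.symm))
        simp only [lowerBi]
        rw [if_neg hj', if_neg this, zero_mul]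
    · intro h; exact absurd (Finset.mem_univ _) h
  have hall : ∀ (k : ℕ) (hk : k ≤ d), v.repr y ⟨d - k, by omega⟩ = 0 := by
    intro k
    induction k with
    | zero => intro _; exact hl
    | succ k ih =>
      intro hk
      apply hrec (d - (k + 1)) (by omega)
      have := ih (by omega)
      convert this using 3
      omega
  apply v.repr.injective
  ext i
  have := hall (d - i) (by omega)
  rw [map_zero, Finsupp.zero_apply]
  convert this using 3
  have := i.2
  omega

lemma distinct (v e : Basis (Fin (d + 1)) K V) {A : End K V} {x : ℕ → K} {μ : Fin (d + 1) → K}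
    (h : LinearMap.toMatrix v v A = lowerBi d x) (he : ∀ k, A (e k) = μ k • e k) :
    Function.Injective μ := by
  intro k l hkl
  by_contra hne
  set s := v.repr (e l) (Fin.last d) with hs
  set t := v.repr (e k) (Fin.last d) with ht
  have h1 : A (s • e k - t • e l) = μ k • (s • e k - t • e l) := by
    rw [map_sub, map_smul, map_smul, he, he, ← hkl]
    module
  have h2 : v.repr (s • e k - t • e l) (Fin.last d) = 0 := by
    simp only [map_sub, map_smul, Finsupp.sub_apply, Finsupp.smul_apply, smul_eq_mul]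
    rw [← hs, ← ht]; ring
  have h3 := last_coord v h h1 h2
  have h4 : s = 0 := by
    have := congrArg (fun z => e.repr z k) h3
    simpa [Finsupp.single_apply, Ne.symm hne, hne] using this
  have h5 : e l = 0 := last_coord v h (he l) h4
  exact e.ne_zero l h5

end aux

/-! ### The scalars -/

section scal

variable {K : Type u} [Field K]

/-- `s_j = q^{2j-d}` -/
def sc (q : K) (d j : ℕ) : K := (q ^ j) ^ 2 / q ^ d

lemma sc_ne {q : K} (hq : q ≠ 0) (d j : ℕ) : sc q d j ≠ 0 :=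
  div_ne_zero (pow_ne_zero _ (pow_ne_zero _ hq)) (pow_ne_zero _ hq)

lemma sc_succ (q : K) (d j : ℕ) : sc q d (j + 1) = q ^ 2 * sc q d j := by
  unfold sc; rw [pow_succ]; ring

lemma zpow_a {q : K} (hq : q ≠ 0) (d j : ℕ) : q ^ (2 * (j : ℤ) - d) = sc q d j := by
  rw [zpow_sub₀ hq, sc, zpow_natCast, mul_comm 2 (j : ℤ), zpow_mul, zpow_natCast]
  norm_cast

lemma zpow_b {q : K} (hq : q ≠ 0) (d j : ℕ) : q ^ ((d : ℤ) - 2 * j) = (sc q d j)⁻¹ := by
  rw [← zpow_a hq, ← zpow_neg]; congr 1; ring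

lemma lam_eq {q : K} (hq : q ≠ 0) (d : ℕ) (x : K) (j : ℕ) :
    lam q d x j = x * sc q d j + x⁻¹ * (sc q d j)⁻¹ := by
  rw [lam, zpow_a hq, zpow_b hq]

lemma lam_rev {q : K} (hq : q ≠ 0) {d : ℕ} (x : K) {j : ℕ} (hj : j ≤ d) :
    lam q d x (d - j) = x * (sc q d j)⁻¹ + x⁻¹ * sc q d j := by
  rw [lam, ← zpow_b hq, ← zpow_a hq]
  have h1 : 2 * ((d - j : ℕ) : ℤ) - d = (d : ℤ) - 2 * j := by push_cast [hj]; ring
  have h2 : (d : ℤ) - 2 * ((d - j : ℕ) : ℤ) = 2 * (j : ℤ) - d := by push_cast [hj]; ring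
  rw [h1, h2]

/-- `w_j = (1 - q^{2j})(1 - q^{2(j-d-1)})` -/
def wj (q : K) (d j : ℕ) : K := (1 - sc q d j * q ^ d) * (1 - sc q d j / (q ^ d * q ^ 2))

/-- `F_j = a⁻¹ - (c/b) q^{d-2j+1}` -/
def Fj (q a b c : K) (d j : ℕ) : K := a⁻¹ - c / b * (q / sc q d j)

/-- `G_j = b - (a/c) q^{d-2j+1}` -/
def Gj (q a b c : K) (d j : ℕ) : K := b - a / c * (q / sc q d j)

lemma phi2_eq {q a b c : K} (ha : a ≠ 0) (hb : b ≠ 0) (hc : c ≠ 0) (hq : q ≠ 0) (d j : ℕ) :
    phi2 q a b c d j = wj q d j * Fj q a b c d j * Gj q a b c d j := by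
  have e1 : q ^ (-(j : ℤ)) = (q ^ j)⁻¹ := by rw [zpow_neg, zpow_natCast]
  have e2 : q ^ ((d : ℤ) - j + 1) = q ^ d * q / q ^ j := by
    rw [zpow_add₀ hq, zpow_sub₀ hq, zpow_natCast, zpow_natCast, zpow_one]; ring
  have e3 : q ^ ((j : ℤ) - d - 1) = q ^ j / (q ^ d * q) := by
    rw [zpow_sub₀ hq, zpow_sub₀ hq, zpow_natCast, zpow_natCast, zpow_one]; field_simp
  unfold phi2 uu rr wj Fj Gj sc
  rw [e1, e2, e3, zpow_natCast, pow_succ]
  have hp : q ^ j ≠ 0 := pow_ne_zero _ hq
  have hE : q ^ d ≠ 0 := pow_ne_zero _ hq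
  generalize q ^ j = p at *
  generalize q ^ d = E at *
  field_simp
  ring

lemma wj_zero {q : K} (hq : q ≠ 0) (d : ℕ) : wj q d 0 = 0 := by
  have hE : q ^ d ≠ 0 := pow_ne_zero _ hq
  unfold wj sc
  rw [pow_zero, one_pow, one_div, inv_mul_cancel₀ hE]; simp

lemma wj_last {q : K} (hq : q ≠ 0) (d : ℕ) : wj q d (d + 1) = 0 := by
  have hE : q ^ d ≠ 0 := pow_ne_zero _ hq
  have : sc q d (d + 1) / (q ^ d * q ^ 2) = 1 := by
    unfold sc; rw [pow_succ]; field_simp; ring
  unfold wj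
  rw [this]; simp

end scal

/-! ### Irreducibility of a Leonard pair -/

section irred

variable {K : Type u} [Field K] {V : Type w} [AddCommGroup V] [Module K V] {d : ℕ}

lemma leonard_irred {A As : End K V} (hL : IsLeonardPair d A As)
    (v : Basis (Fin (d + 1)) K V) {x : ℕ → K} (hA : LinearMap.toMatrix v v A = lowerBi d x)
    {W : Submodule K V} (h1 : ∀ y ∈ W, A y ∈ W) (h2 : ∀ y ∈ W, As y ∈ W) : W = ⊥ ∨ W = ⊤ := by
  obtain ⟨⟨e, he, het⟩, -⟩ := hL
  have heA : ∀ k, A (e k) = (LinearMap.toMatrix e e A k k) • e k := by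
    intro k
    apply e.repr.injective
    ext i
    rw [← LinearMap.toMatrix_apply e e A i k, map_smul, Finsupp.smul_apply, e.repr_self,
      Finsupp.single_apply]
    split_ifs with h
    · subst h; simp
    · rw [he (Ne.symm h)]; simp
  have hinj := distinct v e hA heA
  refine bot_or_top e hinj heA h1 ?_
  intro m h
  constructor
  · intro hm
    refine proj_mem e hinj heA h1 (h2 _ hm) (k := ⟨m + 1, h⟩) ?_
    rw [← LinearMap.toMatrix_apply e e As]
    exact het.2 _ _ (Or.inr rfl)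
  · intro hm
    refine proj_mem e hinj heA h1 (h2 _ hm) (k := ⟨m, by omega⟩) ?_
    rw [← LinearMap.toMatrix_apply e e As]
    exact het.2 _ _ (Or.inl rfl)

lemma split_ne {A As : End K V} (hL : IsLeonardPair d A As)
    (v : Basis (Fin (d + 1)) K V) {x xs p : ℕ → K}
    (hA : LinearMap.toMatrix v v A = lowerBi d x)
    (hAs : LinearMap.toMatrix v v As = upperBi d xs p) {i : ℕ} (hi : 1 ≤ i) (hid : i ≤ d) :
    p i ≠ 0 := by
  intro hp
  let W : Submodule K V :=
    { carrier := {y | ∀ j : Fin (d + 1), (j : ℕ) < i → v.repr y j = 0}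
      add_mem' := by
        intro y z hy hz j hj
        rw [map_add, Finsupp.add_apply, hy j hj, hz j hj, add_zero]
      zero_mem' := by intro j _; simp
      smul_mem' := by
        intro c y hy j hj
        rw [map_smul, Finsupp.smul_apply, hy j hj, smul_zero] }
  have h1 : ∀ y ∈ W, A y ∈ W := by
    intro y hy j hj
    have : v.repr (A y) j = ∑ k, lowerBi d x j k * v.repr y k := by
      rw [← hA]
      exact (congrFun (LinearMap.toMatrix_mulVec_repr v v A y) j).symm
    rw [this]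
    refine Finset.sum_eq_zero fun k _ => ?_
    by_cases h3 : (j : ℕ) = k
    · rw [hy k (by omega), mul_zero]
    · by_cases h4 : (j : ℕ) = k + 1
      · rw [hy k (by omega), mul_zero]
      · simp only [lowerBi]
        rw [if_neg h3, if_neg h4, zero_mul]
  have h2 : ∀ y ∈ W, As y ∈ W := by
    intro y hy j hj
    have : v.repr (As y) j = ∑ k, upperBi d xs p j k * v.repr y k := by
      rw [← hAs]
      exact (congrFun (LinearMap.toMatrix_mulVec_repr v v As y) j).symm
    rw [this]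
    refine Finset.sum_eq_zero fun k _ => ?_
    by_cases h3 : (j : ℕ) = k
    · rw [hy k (by omega), mul_zero]
    · by_cases h4 : (k : ℕ) = j + 1
      · by_cases h5 : (k : ℕ) < i
        · rw [hy k h5, mul_zero]
        · have h6 : (k : ℕ) = i := by omega
          simp only [upperBi]
          rw [if_neg h3, if_pos h4, h6, hp, zero_mul]
      · simp only [upperBi]
        rw [if_neg h3, if_neg h4, zero_mul]
  rcases leonard_irred hL v hA h1 h2 with h | h
  · have hmem : v ⟨i, by omega⟩ ∈ W := by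
      intro j hj
      rw [v.repr_self, Finsupp.single_apply, if_neg]
      intro h'
      rw [← h'] at hj
      simp at hj
    rw [h, Submodule.mem_bot] at hmem
    exact v.ne_zero _ hmem
  · have hmem : v 0 ∈ W := by rw [h]; trivial
    have := hmem 0 (by rw [Fin.val_zero]; omega)
    simp at this

end irred

/-! ### The action -/

section action

variable {K : Type u} [Field K] {V : Type w} [AddCommGroup V] [Module K V]

lemma exists_maps {d : ℕ} {a b c q : K} (ha : a ≠ 0) (hb : b ≠ 0) (hc : c ≠ 0) (hq : q ≠ 0)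
    (hq4 : q ^ 4 ≠ 1) {A As Ae : End K V} (v : Basis (Fin (d + 1)) K V)
    (hA : LinearMap.toMatrix v v A = lowerBi d (fun i => lam q d a (d - i)))
    (hAs : LinearMap.toMatrix v v As = upperBi d (lam q d b) (phi2 q a b c d))
    (hne : ∀ i, 1 ≤ i → i ≤ d → phi2 q a b c d i ≠ 0)
    (hAe : (q ^ 2 - (q⁻¹) ^ 2) • Ae = q⁻¹ • (A * As) - q • (As * A)
      + ((q - q⁻¹) * ((a + a⁻¹) * (b + b⁻¹) + (c + c⁻¹) * (q ^ (d + 1) + (q⁻¹) ^ (d + 1)))) •
        (1 : End K V)) :
    ∃ X Xi Y Z : End K V, X * Xi = 1 ∧ Xi * X = 1 ∧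
      q • (X * Y) - q⁻¹ • (Y * X) = (q - q⁻¹) • (1 : End K V) ∧
      q • (Y * Z) - q⁻¹ • (Z * Y) = (q - q⁻¹) • (1 : End K V) ∧
      q • (Z * X) - q⁻¹ • (X * Z) = (q - q⁻¹) • (1 : End K V) ∧
      A = a • X + a⁻¹ • Y + (c / b / (q - q⁻¹)) • (X * Y - Y * X) ∧
      As = b • Z + b⁻¹ • X + (a / c / (q - q⁻¹)) • (Z * X - X * Z) ∧
      Ae = c • Y + c⁻¹ • Z + (b / a / (q - q⁻¹)) • (Y * Z - Z * Y) ∧
      (∀ W : Submodule K V, (∀ x ∈ W, X x ∈ W) → (∀ x ∈ W, Y x ∈ W) → (∀ x ∈ W, Z x ∈ W) →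
        W = ⊥ ∨ W = ⊤) := by
  have hq2 : q ^ 2 - 1 ≠ 0 := by
    intro h
    apply hq4
    have : q ^ 2 = 1 := by linear_combination h
    calc q ^ 4 = (q ^ 2) ^ 2 := by ring
      _ = 1 := by rw [this, one_pow]
  have hqq : q - q⁻¹ ≠ 0 := by
    intro h
    apply hq2
    have : q * (q - q⁻¹) = q ^ 2 - 1 := by field_simp
    rw [← this, h, mul_zero]
  have hq22 : q ^ 2 - (q⁻¹) ^ 2 ≠ 0 := by
    intro h
    apply hq4
    have : q ^ 2 * (q ^ 2 - (q⁻¹) ^ 2) = q ^ 4 - 1 := by field_simp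
    rw [h, mul_zero] at this
    linear_combination -this
  -- scalars
  set s : ℕ → K := sc q d with hs
  have hs0 : ∀ j, s j ≠ 0 := sc_ne hq d
  have hs1 : ∀ j, s (j + 1) = q ^ 2 * s j := sc_succ q d
  set W : ℕ → K := wj q d with hW
  set F : ℕ → K := Fj q a b c d with hF
  set G : ℕ → K := Gj q a b c d with hG
  have hphi : ∀ j, phi2 q a b c d j = W j * F j * G j := phi2_eq ha hb hc hq d
  have hW0 : W 0 = 0 := wj_zero hq d
  have hWd : W (d + 1) = 0 := wj_last hq d
  have hFne : ∀ i, 1 ≤ i → i ≤ d → F i ≠ 0 := by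
    intro i h1 h2 h3
    apply hne i h1 h2
    rw [hphi, h3]; ring
  have hWne : ∀ i, 1 ≤ i → i ≤ d → W i ≠ 0 := by
    intro i h1 h2 h3
    apply hne i h1 h2
    rw [hphi, h3]; ring
  obtain ⟨y, hy⟩ : ∃ y : ℕ → K, ∀ j, y j = (F j)⁻¹ := ⟨_, fun _ => rfl⟩
  obtain ⟨z, hz⟩ : ∃ z : ℕ → K, ∀ j, z j = W j * F j := ⟨_, fun _ => rfl⟩
  have hz0 : z 0 = 0 := by rw [hz, hW0, zero_mul]
  have hzd : z (d + 1) = 0 := by rw [hz, hWd, zero_mul]
  have hyF : ∀ j, (y (j + 1) * F (j + 1)) • vv v (j + 1) = vv v (j + 1) := by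
    intro j
    by_cases h : j + 1 ≤ d
    · rw [hy, inv_mul_cancel₀ (hFne _ (by omega) h), one_smul]
    · rw [vv_ge v (by omega), smul_zero]
  have hyz : ∀ j, j ≤ d + 1 → z j * y j = W j := by
    intro j hj
    rcases Nat.eq_zero_or_pos j with h | h
    · subst h; rw [hz0, hW0, zero_mul]
    · rcases Nat.lt_or_ge d j with h' | h'
      · have : j = d + 1 := by omega
        subst this; rw [hzd, hWd, zero_mul]
      · rw [hz, hy, mul_assoc, mul_inv_cancel₀ (hFne _ h h'), mul_one]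
  -- the maps
  obtain ⟨X, hX⟩ : ∃ X : End K V, ∀ j, X (vv v j) = (s j)⁻¹ • vv v j :=
    ⟨mkE v (fun j => (s j)⁻¹ • vv v j), fun j =>
      mkE_vv v _ (fun j hj => by rw [vv_ge v hj, smul_zero]) j⟩
  obtain ⟨Xi, hXi⟩ : ∃ X : End K V, ∀ j, X (vv v j) = s j • vv v j :=
    ⟨mkE v (fun j => s j • vv v j), fun j =>
      mkE_vv v _ (fun j hj => by rw [vv_ge v hj, smul_zero]) j⟩
  obtain ⟨Y, hY⟩ : ∃ Y : End K V, ∀ j, Y (vv v j) = s j • vv v j + y (j + 1) • vv v (j + 1) :=
    ⟨mkE v (fun j => s j • vv v j + y (j + 1) • vv v (j + 1)), fun j =>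
      mkE_vv v _ (fun j hj => by
        rw [vv_ge v hj, vv_ge v (by omega : d + 1 ≤ j + 1), smul_zero, smul_zero, add_zero]) j⟩
  obtain ⟨Z, hZ⟩ : ∃ Z : End K V, ∀ j, Z (vv v j) = s j • vv v j + z j • vv v (j - 1) :=
    ⟨mkE v (fun j => s j • vv v j + z j • vv v (j - 1)), fun j =>
      mkE_vv v _ (fun j hj => by
        rcases Nat.lt_or_ge (d + 1) j with h | h
        · rw [vv_ge v hj, vv_ge v (by omega : d + 1 ≤ j - 1), smul_zero, smul_zero, add_zero]
        · have : j = d + 1 := by omega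
          subst this
          rw [vv_ge v hj, hzd, smul_zero, zero_smul, add_zero]) j⟩
  have hAv : ∀ j, A (vv v j) = (a * (s j)⁻¹ + a⁻¹ * s j) • vv v j + vv v (j + 1) := by
    intro j
    rw [lower_vv v hA j]
    by_cases h : j ≤ d
    · rw [lam_rev hq a h]
    · rw [vv_ge v (by omega), smul_zero, smul_zero]
  have hAsv : ∀ j, As (vv v j) = (b * s j + b⁻¹ * (s j)⁻¹) • vv v j
      + (z j * G j) • vv v (j - 1) := by
    intro j
    rw [upper_vv v hAs (by rw [hphi, hW0]; ring) (by rw [hphi, hWd]; ring) j, lam_eq hq, hphi, hz]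
  have hX' : ∀ j, z j • X (vv v (j - 1)) = (z j * (q ^ 2 * (s j)⁻¹)) • vv v (j - 1) := by
    intro j
    rcases j with _ | k
    · simp [hz0]
    · rw [Nat.add_sub_cancel, hX, hs1, smul_smul]
      congr 1
      have := hs0 k
      field_simp
  have hY' : ∀ j, z j • Y (vv v (j - 1)) = (z j * (s j * (q ^ 2)⁻¹)) • vv v (j - 1)
      + (z j * y j) • vv v j := by
    intro j
    rcases j with _ | k
    · simp [hz0]
    · rw [Nat.add_sub_cancel, hY, hs1, smul_add, smul_smul, smul_smul]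
      congr 2
      field_simp
  have hA' : ∀ j, (z j * G j) • A (vv v (j - 1)) =
      (z j * G j * (a * (q ^ 2 * (s j)⁻¹) + a⁻¹ * (s j * (q ^ 2)⁻¹))) • vv v (j - 1)
      + (z j * G j) • vv v j := by
    intro j
    rcases j with _ | k
    · simp [hz0]
    · rw [Nat.add_sub_cancel, hAv, hs1, smul_add, smul_smul]
      congr 2
      have := hs0 k
      field_simp
  -- commutators
  have hXY : ∀ j, (X * Y - Y * X) (vv v j) =
      (y (j + 1) * ((q ^ 2)⁻¹ * (s j)⁻¹ - (s j)⁻¹)) • vv v (j + 1) := by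
    intro j
    have h0 := hs0 j
    simp only [LinearMap.sub_apply, Module.End.mul_apply, hY, hX, map_add, map_smul, hs1]
    match_scalars
    all_goals (field_simp; try ring)
  have hXZ1 : ∀ j, X (Z (vv v j)) = vv v j + (z j * (q ^ 2 * (s j)⁻¹)) • vv v (j - 1) := by
    intro j
    rw [hZ, map_add, map_smul, map_smul, hX', hX, smul_smul, mul_inv_cancel₀ (hs0 j), one_smul]
  have hZX1 : ∀ j, Z (X (vv v j)) = vv v j + (z j * (s j)⁻¹) • vv v (j - 1) := by
    intro j
    rw [hX, map_smul, hZ, smul_add, smul_smul, smul_smul, inv_mul_cancel₀ (hs0 j), one_smul,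
      mul_comm (z j)]
  have hZX : ∀ j, (Z * X - X * Z) (vv v j) =
      (z j * ((s j)⁻¹ - q ^ 2 * (s j)⁻¹)) • vv v (j - 1) := by
    intro j
    simp only [LinearMap.sub_apply, Module.End.mul_apply]
    rw [hXZ1, hZX1]
    module
  have hYZ1 : ∀ j, j ≤ d → Y (Z (vv v j)) = (s j * s j + W j) • vv v j
      + (s j * y (j + 1)) • vv v (j + 1) + (z j * (s j * (q ^ 2)⁻¹)) • vv v (j - 1) := by
    intro j hj
    rw [hZ, map_add, map_smul, map_smul, hY', hY, hyz j (by omega)]
    module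
  have hZY1 : ∀ j, j ≤ d → Z (Y (vv v j)) = (s j * s j + W (j + 1)) • vv v j
      + (q ^ 2 * s j * y (j + 1)) • vv v (j + 1) + (z j * s j) • vv v (j - 1) := by
    intro j hj
    rw [hY, map_add, map_smul, map_smul, hZ, hZ, Nat.add_sub_cancel, hs1, ← hyz (j + 1) (by omega)]
    module
  have hWs : ∀ j, W j = (1 - s j * q ^ d) * (1 - s j / (q ^ d * q ^ 2)) := fun j => rfl
  have hFs : ∀ j, F j = a⁻¹ - c / b * (q / s j) := fun j => rfl
  have hGs : ∀ j, G j = b - a / c * (q / s j) := fun j => rfl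
  have hE : q ^ d ≠ 0 := pow_ne_zero _ hq
  refine ⟨X, Xi, Y, Z, ?_, ?_, ?_, ?_, ?_, ?_, ?_, ?_, ?_⟩
  · apply ext_vv v
    intro j
    rw [Module.End.mul_apply, hXi, map_smul, hX, smul_smul, mul_inv_cancel₀ (hs0 j), one_smul,
      Module.End.one_apply]
  · apply ext_vv v
    intro j
    rw [Module.End.mul_apply, hX, map_smul, hXi, smul_smul, inv_mul_cancel₀ (hs0 j), one_smul,
      Module.End.one_apply]
  · apply ext_vv v
    intro j
    have h0 := hs0 j
    simp only [LinearMap.sub_apply, LinearMap.smul_apply, Module.End.mul_apply, hY, hX, map_add,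
      map_smul, hs1, Module.End.one_apply]
    match_scalars <;> field_simp <;> ring
  · apply ext_vv v
    intro j
    have h0 := hs0 j
    by_cases hj : j ≤ d
    · simp only [LinearMap.sub_apply, LinearMap.smul_apply, Module.End.mul_apply,
        Module.End.one_apply]
      rw [hYZ1 j hj, hZY1 j hj, hWs, hWs, hs1]
      match_scalars <;> field_simp <;> ring
    · rw [vv_ge v (by omega), map_zero, map_zero]
  · apply ext_vv v
    intro j
    have h0 := hs0 j
    simp only [LinearMap.sub_apply, LinearMap.smul_apply, Module.End.mul_apply,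
      Module.End.one_apply]
    rw [hXZ1, hZX1]
    match_scalars <;> field_simp <;> ring
  · apply ext_vv v
    intro j
    have h0 := hs0 j
    rw [LinearMap.add_apply, LinearMap.add_apply, LinearMap.smul_apply, LinearMap.smul_apply,
      LinearMap.smul_apply, hXY, hX, hY, hAv]
    have h1 : y (j + 1) * F (j + 1) = a⁻¹ * y (j + 1)
        + c / b / (q - q⁻¹) * (y (j + 1) * ((q ^ 2)⁻¹ * (s j)⁻¹ - (s j)⁻¹)) := by
      rw [hFs, hs1]
      have h2 : q ^ 2 - 1 ≠ 0 := hq2
      have h3 : q - q⁻¹ = (q ^ 2 - 1) / q := by field_simp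
      rw [h3]
      field_simp
      ring
    conv_lhs => rw [← hyF j, h1]
    module
  · apply ext_vv v
    intro j
    have h0 := hs0 j
    rw [LinearMap.add_apply, LinearMap.add_apply, LinearMap.smul_apply, LinearMap.smul_apply,
      LinearMap.smul_apply, hZX, hX, hZ, hAsv]
    have h1 : z j * G j = b * z j
        + a / c / (q - q⁻¹) * (z j * ((s j)⁻¹ - q ^ 2 * (s j)⁻¹)) := by
      rw [hGs]
      have h2 : q ^ 2 - 1 ≠ 0 := hq2
      have h3 : q - q⁻¹ = (q ^ 2 - 1) / q := by field_simp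
      rw [h3]
      field_simp
      ring
    rw [h1]
    module
  · have key : (q ^ 2 - (q⁻¹) ^ 2) • (c • Y + c⁻¹ • Z + (b / a / (q - q⁻¹)) • (Y * Z - Z * Y)) =
        q⁻¹ • (A * As) - q • (As * A)
      + ((q - q⁻¹) * ((a + a⁻¹) * (b + b⁻¹) + (c + c⁻¹) * (q ^ (d + 1) + (q⁻¹) ^ (d + 1)))) •
        (1 : End K V) := by
      apply ext_vv v
      intro j
      by_cases hj : j ≤ d
      · have h0 := hs0 j
        have e1 : A (As (vv v j)) = (b * s j + b⁻¹ * (s j)⁻¹) •
            ((a * (s j)⁻¹ + a⁻¹ * s j) • vv v j + vv v (j + 1)) +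
            ((z j * G j * (a * (q ^ 2 * (s j)⁻¹) + a⁻¹ * (s j * (q ^ 2)⁻¹))) • vv v (j - 1)
              + (z j * G j) • vv v j) := by
          rw [hAsv, map_add, map_smul, map_smul, hA', hAv]
        have e2 : As (A (vv v j)) = (a * (s j)⁻¹ + a⁻¹ * s j) •
            ((b * s j + b⁻¹ * (s j)⁻¹) • vv v j + (z j * G j) • vv v (j - 1)) +
            ((b * (q ^ 2 * s j) + b⁻¹ * (q ^ 2 * s j)⁻¹) • vv v (j + 1)
              + (z (j + 1) * G (j + 1)) • vv v j) := by
          rw [hAv, map_add, map_smul, hAsv, hAsv, Nat.add_sub_cancel, hs1]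
        simp only [LinearMap.sub_apply, LinearMap.smul_apply, LinearMap.add_apply,
          Module.End.mul_apply, Module.End.one_apply]
        rw [hYZ1 j hj, hZY1 j hj, e1, e2, hY, hZ]
        have h2 : q ^ 2 - 1 ≠ 0 := hq2
        have h3 : q - q⁻¹ = (q ^ 2 - 1) / q := by field_simp
        have hplus : (q ^ 2 - (q⁻¹) ^ 2) * (c * y (j + 1)
            + (b / a / (q - q⁻¹)) * (s j * y (j + 1) - q ^ 2 * s j * y (j + 1))) =
            (-(q ^ 2 - (q⁻¹) ^ 2) * b * q * s j) * (y (j + 1) * F (j + 1)) := by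
          rw [hFs, hs1, h3]
          field_simp
          ring
        have hminus : (q ^ 2 - (q⁻¹) ^ 2) * (c⁻¹ * z j
            + (b / a / (q - q⁻¹)) * (z j * (s j * (q ^ 2)⁻¹) - z j * s j)) =
            q⁻¹ * (z j * G j * (a * (q ^ 2 * (s j)⁻¹) + a⁻¹ * (s j * (q ^ 2)⁻¹)))
            - q * ((a * (s j)⁻¹ + a⁻¹ * s j) * (z j * G j)) := by
          rw [hGs, h3]
          field_simp
          ring
        have hmid : (q ^ 2 - (q⁻¹) ^ 2) * (c * s j + c⁻¹ * s j
            + (b / a / (q - q⁻¹)) * (W j - W (j + 1))) =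
            q⁻¹ * ((b * s j + b⁻¹ * (s j)⁻¹) * (a * (s j)⁻¹ + a⁻¹ * s j) + z j * G j)
            - q * ((a * (s j)⁻¹ + a⁻¹ * s j) * (b * s j + b⁻¹ * (s j)⁻¹) + z (j + 1) * G (j + 1))
            + (q - q⁻¹) * ((a + a⁻¹) * (b + b⁻¹)
              + (c + c⁻¹) * (q ^ (d + 1) + (q⁻¹) ^ (d + 1))) := by
          rw [hz, hz, hGs, hGs, hFs, hFs, hWs, hWs, hs1, h3, pow_succ q d, pow_succ q⁻¹ d, inv_pow q d]
          generalize q ^ d = E at *
          field_simp
          ring
        have hLHS : (q ^ 2 - q⁻¹ ^ 2) • (c • (s j • vv v j + y (j + 1) • vv v (j + 1))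
            + c⁻¹ • (s j • vv v j + z j • vv v (j - 1))
            + (b / a / (q - q⁻¹)) • (((s j * s j + W j) • vv v j
              + (s j * y (j + 1)) • vv v (j + 1) + (z j * (s j * (q ^ 2)⁻¹)) • vv v (j - 1))
              - ((s j * s j + W (j + 1)) • vv v j
              + (q ^ 2 * s j * y (j + 1)) • vv v (j + 1) + (z j * s j) • vv v (j - 1)))) =
            ((q ^ 2 - (q⁻¹) ^ 2) * (c * s j + c⁻¹ * s j
              + (b / a / (q - q⁻¹)) * (W j - W (j + 1)))) • vv v j
            + ((q ^ 2 - (q⁻¹) ^ 2) * (c * y (j + 1)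
              + (b / a / (q - q⁻¹)) * (s j * y (j + 1) - q ^ 2 * s j * y (j + 1)))) • vv v (j + 1)
            + ((q ^ 2 - (q⁻¹) ^ 2) * (c⁻¹ * z j
              + (b / a / (q - q⁻¹)) * (z j * (s j * (q ^ 2)⁻¹) - z j * s j))) • vv v (j - 1) := by
          module
        rw [hLHS, hplus, hminus, hmid, mul_smul _ (y (j + 1) * F (j + 1)), hyF]
        match_scalars
        · ring
        · field_simp
          ring
        · ring
      · rw [vv_ge v (by omega), map_zero, map_zero]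
    rw [← hAe] at key
    exact (smul_right_injective _ hq22 key).symm
  · intro U h1 h2 h3
    have hlt : ∀ k l : ℕ, k < l → l ≤ d → s k ≠ s l := by
      intro k l hkl hl hkl'
      apply hWne (l - k) (by omega) (by omega)
      have h4 : (q ^ (l - k)) ^ 2 = 1 := by
        have h5 : s l = (q ^ (l - k)) ^ 2 * s k := by
          have : q ^ l = q ^ (l - k) * q ^ k := by rw [← pow_add]; congr 1; omega
          simp only [hs, sc]
          rw [this]; ring
        rw [← hkl'] at h5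
        have := hs0 k
        field_simp at h5
        exact h5.symm
      have h6 : s (l - k) * q ^ d = 1 := by
        simp only [hs, sc]
        rw [h4]; field_simp
      rw [hWs, h6]; ring
    have hmu : Function.Injective (fun k : Fin (d + 1) => (s k)⁻¹) := by
      intro k l hkl
      have hkl' : s k = s l := inv_injective hkl
      rcases lt_trichotomy (k : ℕ) l with h | h | h
      · exact absurd hkl' (hlt k l h (by omega))
      · exact Fin.ext h
      · exact absurd hkl'.symm (hlt l k h (by omega))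
    refine bot_or_top v hmu (fun k => by rw [← vv_lt v k, hX]) h1 ?_
    intro m h
    have e1 : vv v m = v ⟨m, by omega⟩ := vv_lt v ⟨m, by omega⟩
    have e2 : vv v (m + 1) = v ⟨m + 1, h⟩ := vv_lt v ⟨m + 1, h⟩
    rw [← e1, ← e2]
    constructor
    · intro hm
      have h4 := h2 _ hm
      rw [hY] at h4
      have h5 := (U.add_mem_iff_right (U.smul_mem _ hm)).1 h4
      have hy0 : y (m + 1) ≠ 0 := by
        rw [hy]; exact inv_ne_zero (hFne _ (by omega) (by omega))
      exact (U.smul_mem_iff hy0).1 h5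
    · intro hm
      have h4 := h3 _ hm
      rw [hZ] at h4
      have h5 := (U.add_mem_iff_right (U.smul_mem _ hm)).1 h4
      have hz0 : z (m + 1) ≠ 0 := by
        rw [hz]
        exact mul_ne_zero (hWne _ (by omega) (by omega)) (hFne _ (by omega) (by omega))
      exact (U.smul_mem_iff hz0).1 h5

end action

/-- **MP_dc3d2a_al, Q1 (positive answer).** -/
theorem result : ∀ (K : Type u) [Field K] (V : Type w) [AddCommGroup V] [Module K V] (d : ℕ)
    (a b c q : K), a ≠ 0 → b ≠ 0 → c ≠ 0 → q ≠ 0 → q ^ 4 ≠ 1 →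
    ∀ A As Ae : End K V, IsLeonardPair d A As →
    HasParameterArray d A As (lam q d a) (lam q d b) (phi1 q a b c d) (phi2 q a b c d) →
    (q ^ 2 - (q⁻¹) ^ 2) • Ae = q⁻¹ • (A * As) - q • (As * A)
      + ((q - q⁻¹) * ((a + a⁻¹) * (b + b⁻¹) + (c + c⁻¹) * (q ^ (d + 1) + (q⁻¹) ^ (d + 1)))) •
        (1 : End K V) →
    ∃ ρ : Uq q →ₐ[K] End K V, IsIrreducible ρ ∧
      A = a • ρ (gen q .X) + a⁻¹ • ρ (gen q .Y)
        + (c / b / (q - q⁻¹)) • ρ (gen q .X * gen q .Y - gen q .Y * gen q .X) ∧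
      As = b • ρ (gen q .Z) + b⁻¹ • ρ (gen q .X)
        + (a / c / (q - q⁻¹)) • ρ (gen q .Z * gen q .X - gen q .X * gen q .Z) ∧
      Ae = c • ρ (gen q .Y) + c⁻¹ • ρ (gen q .Z)
        + (b / a / (q - q⁻¹)) • ρ (gen q .Y * gen q .Z - gen q .Z * gen q .Y) := by
  intro K _ V _ _ d a b c q ha hb hc hq hq4 A As Ae hL hP hAe
  obtain ⟨-, v, hA, hAs⟩ := hP
  have hne : ∀ i, 1 ≤ i → i ≤ d → phi2 q a b c d i ≠ 0 := fun i h1 h2 =>
    split_ne hL v hA hAs h1 h2
  obtain ⟨X, Xi, Y, Z, r1, r2, r3, r4, r5, eA, eAs, eAe, hirr⟩ :=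
    exists_maps ha hb hc hq hq4 v hA hAs hne hAe
  let f : Gen → End K V := fun g => match g with
    | .X => X
    | .Xinv => Xi
    | .Y => Y
    | .Z => Z
  have hf : ∀ ⦃x y : FreeAlgebra K Gen⦄, Rel q x y →
      FreeAlgebra.lift K f x = FreeAlgebra.lift K f y := by
    intro x y h
    cases h with
    | mul_inv => simpa [f] using r1
    | inv_mul => simpa [f] using r2
    | xy => simpa [f] using r3
    | yz => simpa [f] using r4
    | zx => simpa [f] using r5
  let ρ : Uq q →ₐ[K] End K V := RingQuot.liftAlgHom K ⟨FreeAlgebra.lift K f, hf⟩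
  have hρ : ∀ g, ρ (gen q g) = f g := by
    intro g
    simp only [ρ, gen, RingQuot.liftAlgHom_mkAlgHom_apply, FreeAlgebra.lift_ι_apply]
  have hX : ρ (gen q .X) = X := hρ _
  have hY : ρ (gen q .Y) = Y := hρ _
  have hZ : ρ (gen q .Z) = Z := hρ _
  refine ⟨ρ, ⟨?_, ?_⟩, ?_, ?_, ?_⟩
  · exact ⟨v 0, 0, v.ne_zero 0⟩
  · intro U hU
    refine hirr U (fun x hx => ?_) (fun x hx => ?_) (fun x hx => ?_)
    · rw [← hX]; exact hU _ x hx
    · rw [← hY]; exact hU _ x hx
    · rw [← hZ]; exact hU _ x hx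
  · rw [map_sub, map_mul, map_mul, hX, hY]; exact eA
  · rw [map_sub, map_mul, map_mul, hX, hZ]; exact eAs
  · rw [map_sub, map_mul, map_mul, hY, hZ]; exact eAe

end Pool.Agent.Results.MP_dc3d2a_al.EquitableAction
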